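import Mathlib

set_option autoImplicit false

open scoped TensorProduct

namespace Run7.h446.Heeg

/-- `a_p = p + 1 - #W(F_p)`. -/
noncomputable def ap (W : WeierstrassCurve ℤ) (p : ℕ) : ℤ :=
  p + 1 - (Nat.card (W.baseChange (ZMod p)).toAffine.Point : ℤ)

/-- The group `E(F)`, for a Weierstrass equation over the integers. -/
def Pt (W : WeierstrassCurve ℤ) (F : Type) [Field F] : Type :=
  (W.baseChange F).toAffine.Point

open Classical in
noncomputable instance Pt.grp (W : WeierstrassCurve ℤ) (F : Type) [Field F] :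
    AddCommGroup (Pt W F) :=
  inferInstanceAs (AddCommGroup (W.baseChange F).toAffine.Point)

open Classical in
/-- A field homomorphism acts on points through the coordinates. -/
noncomputable def Pt.map (W : WeierstrassCurve ℤ) {F F' : Type} [Field F] [Field F']
    (f : F →+* F') : Pt W F →+ Pt W F' :=
  WeierstrassCurve.Affine.Point.map (W' := W) (S := ℤ) f.toIntAlgHom

/-- `E(F) ⊗ Q_p`. -/
abbrev VV (p : ℕ) [Fact p.Prime] (W : WeierstrassCurve ℤ) (F : Type) [Field F] : Type :=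
  ℚ_[p] ⊗[ℤ] Pt W F

/-- The map `E(F) ⊗ Q_p → E(F') ⊗ Q_p` induced by a field homomorphism. -/
noncomputable def VV.map (p : ℕ) [Fact p.Prime] (W : WeierstrassCurve ℤ) {F F' : Type}
    [Field F] [Field F'] (f : F →+* F') : VV p W F →ₗ[ℚ_[p]] VV p W F' :=
  LinearMap.baseChange ℚ_[p] (Pt.map W f).toIntLinearMap

section

variable (p : ℕ) [Fact p.Prime] (W : WeierstrassCurve ℤ) (K : Type) [Field K]
  {F : Type} [Field F] [Algebra K F]

/-- The norm of `E(F) ⊗ Q_p` down to `K`, for a finite Galois extension `F/K`. -/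
noncomputable def norm [FiniteDimensional K F] (z : VV p W F) : VV p W F :=
  ∑ g : F ≃ₐ[K] F, VV.map p W (g : F →+* F) z

/-- `z_0 = u⁻¹ (α⁻² - α⁻¹ (σ + σ') + 1) y_0` with `y_0 = c₀⁻¹ x₀`. -/
noncomputable def zzero (u : ℕ) (α : ℚ_[p]) (σ σ' : F ≃ₐ[K] F) (c₀ : ℤ) (x₀ : Pt W F) :
    VV p W F :=
  let y₀ : VV p W F := (c₀ : ℚ_[p])⁻¹ ⊗ₜ[ℤ] x₀
  (u : ℚ_[p])⁻¹ • ((α⁻¹) ^ 2 • y₀
    - α⁻¹ • (VV.map p W (σ : F →+* F) y₀ + VV.map p W (σ' : F →+* F) y₀) + y₀)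

/-- `θ_n = ∑_g z^g ⊗ g⁻¹`, as a function on the Galois group. -/
noncomputable def theta (z : VV p W F) (g : F ≃ₐ[K] F) : VV p W F :=
  VV.map p W (g⁻¹ : F ≃ₐ[K] F) z

/-- `L_n = θ_n ⊗ θ_n^*`, as a function on the Galois group. -/
noncomputable def Lscr [FiniteDimensional K F] (z : VV p W F) (g : F ≃ₐ[K] F) :
    VV p W F ⊗[ℚ_[p]] VV p W F :=
  ∑ a : F ≃ₐ[K] F, theta p W K z a ⊗ₜ[ℚ_[p]] theta p W K z (a⁻¹ * g)⁻¹

/-- The class of `L_n` modulo `J`, seen in `(E(L) ⊗ Q_p)^{⊗2}` for a field `L` containing `F`. -/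
noncomputable def classJ {L : Type} [Field L] [FiniteDimensional K F] (i : F →+* L)
    (z : VV p W F) : VV p W L ⊗[ℚ_[p]] VV p W L :=
  TensorProduct.map (VV.map p W i) (VV.map p W i) (∑ g : F ≃ₐ[K] F, Lscr p W K z g)

/-- `P ⊗ P` in `(E(L) ⊗ Q_p)^{⊗2}`, for a point `P` of `E(K)`. -/
noncomputable def sq {L : Type} [Field L] [Algebra K L] (P : Pt W K) :
    VV p W L ⊗[ℚ_[p]] VV p W L :=
  ((1 : ℚ_[p]) ⊗ₜ[ℤ] Pt.map W (algebraMap K L) P) ⊗ₜ[ℚ_[p]]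
    ((1 : ℚ_[p]) ⊗ₜ[ℤ] Pt.map W (algebraMap K L) P)

end

end Run7.h446.Heeg
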