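import Mathlib

set_option autoImplicit false

namespace Run7.h446.Heeg

/-- The arithmetic heart: `(1 - α⁻¹)^4` is irrational. -/
theorem irr_core {F : Type} [Field F] [CharZero F] (p : ℕ) (hp : p.Prime) (a : ℤ)
    (hpa : ¬ (p : ℤ) ∣ a) (h1 : a ≠ p + 1) (h2 : a ≠ -(p + 1)) (α : F)
    (hα : α ^ 2 - a * α + p = 0) (x : ℚ) : (α - 1) ^ 4 ≠ x * α ^ 4 := by
  intro hx
  -- α is irrational
  have hirr : ∀ r : ℚ, α ≠ r := by
    intro r hr
    have h3 : (r : ℚ) ^ 2 - a * r + p = 0 := by
      have : ((r ^ 2 - a * r + p : ℚ) : F) = 0 := by push_cast; rw [← hr]; exact hα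
      exact_mod_cast this
    -- rational root is an integer
    obtain ⟨n, hn⟩ : ∃ n : ℤ, (n : ℚ) = r := by
      have hint : IsIntegral ℤ r := by
        refine ⟨Polynomial.X ^ 2 + (Polynomial.C (-a) * Polynomial.X + Polynomial.C (p : ℤ)), ?_, ?_⟩
        · apply Polynomial.monic_X_pow_add
          exact lt_of_le_of_lt Polynomial.degree_linear_le (by norm_num)
        · simp only [Polynomial.eval₂_add, Polynomial.eval₂_mul,
            Polynomial.eval₂_X, Polynomial.eval₂_C, Polynomial.eval₂_pow]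
          simp only [eq_intCast, Int.cast_neg, Int.cast_natCast]
          linear_combination h3
      obtain ⟨n, hn⟩ := IsIntegrallyClosed.isIntegral_iff.1 hint
      exact ⟨n, by simpa using hn⟩
    rw [← hn] at h3
    have h4 : n * (a - n) = p := by
      have : ((n * (a - n) : ℤ) : ℚ) = ((p : ℤ) : ℚ) := by push_cast; linear_combination -h3
      exact_mod_cast this
    have h5 : n ∣ (p : ℤ) := ⟨_, h4.symm⟩
    have h6 : n.natAbs ∣ p := by
      have := Int.natAbs_dvd_natAbs.2 h5
      simpa using this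
    have hp0 : (p : ℤ) ≠ 0 := by exact_mod_cast hp.ne_zero
    rcases (Nat.dvd_prime hp).1 h6 with h7 | h7
    · rcases Int.natAbs_eq n with h8 | h8
      · rw [h7] at h8
        apply h1
        rw [h8] at h4
        push_cast at h4
        linarith
      · rw [h7] at h8
        apply h2
        rw [h8] at h4
        push_cast at h4
        linarith
    · rcases Int.natAbs_eq n with h8 | h8
      · rw [h7] at h8
        rw [h8] at h4
        have h9 : a - p = 1 := by
          have := mul_left_cancel₀ hp0 (h4.trans (mul_one (p:ℤ)).symm)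
          exact this
        apply h1; linarith
      · rw [h7] at h8
        rw [h8] at h4
        have h9 : -(a + p) = 1 := by
          have h10 : (p : ℤ) * (-(a + p)) = p * 1 := by linear_combination h4
          exact mul_left_cancel₀ hp0 h10
        apply h2; linarith
  -- linear relation
  have hlin : ∀ A B : ℚ, (A : F) + B * α = 0 → A = 0 ∧ B = 0 := by
    intro A B h
    by_cases hB : B = 0
    · subst hB
      simp only [Rat.cast_zero, zero_mul, add_zero, Rat.cast_eq_zero] at h
      exact ⟨h, rfl⟩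
    · exfalso
      apply hirr (-A / B)
      have hB' : (B : F) ≠ 0 := by exact_mod_cast hB
      push_cast
      field_simp
      linear_combination h
  have hrel := hlin ((1 - x) * (-(p * (a ^ 2 - p))) + 4 * a * p - 6 * p + 1)
    ((1 - x) * (a ^ 3 - 2 * a * p) - 4 * (a ^ 2 - p) + 6 * a - 4) (by
      push_cast
      linear_combination hx - ((1 - x) * (α ^ 2 + a * α + (a^2 - p)) - 4 * (α + a) + 6) * hα)
  obtain ⟨hA, hB⟩ := hrel
  have hkey : (a : ℚ) ^ 3 = p * (4 * a ^ 2 - 6 * p * a + 2 * a + 4 * p ^ 2 - 4 * p) := by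
    -- eliminate 1 - x
    have e1 : (a ^ 3 - 2 * a * p : ℚ) * ((1 - x) * (-(p * (a ^ 2 - p))) + 4 * a * p - 6 * p + 1)
      - (-(p * (a ^ 2 - p)) : ℚ) * ((1 - x) * (a ^ 3 - 2 * a * p) - 4 * (a ^ 2 - p) + 6 * a - 4)
        = 0 := by rw [hA, hB]; ring
    linear_combination e1
  have hkey' : a ^ 3 = p * (4 * a ^ 2 - 6 * p * a + 2 * a + 4 * p ^ 2 - 4 * p) := by
    exact_mod_cast hkey
  apply hpa
  exact (Nat.prime_iff_prime_int.1 hp).dvd_of_dvd_pow ⟨_, hkey'⟩

end Run7.h446.Heeg
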