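import Mathlib
import Pool.Agent.Run7.h446.HeegDefs

set_option autoImplicit false

namespace Run7.h446.Heeg

theorem card_pt_le (p : ℕ) [Fact p.Prime] (W : WeierstrassCurve (ZMod p)) :
    1 ≤ Nat.card W.toAffine.Point ∧ Nat.card W.toAffine.Point ≤ 2 * p + 1 := by
  classical
  have e : W.toAffine.Point ≃ WithZero {xy : ZMod p × ZMod p // W.toAffine.Nonsingular xy.1 xy.2} :=
    WeierstrassCurve.Affine.nonsingularPointEquiv W.toAffine
  have e2 : Nat.card W.toAffine.Point =
      Nat.card {xy : ZMod p × ZMod p // W.toAffine.Nonsingular xy.1 xy.2} + 1 := by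
    rw [Nat.card_congr e]
    exact Finite.card_option
  rw [e2]
  refine ⟨by omega, ?_⟩
  have h3 : Nat.card {xy : ZMod p × ZMod p // W.toAffine.Nonsingular xy.1 xy.2} ≤ 2 * p := by
    rw [Nat.card_eq_fintype_card, Fintype.card_subtype]
    have h4 : (Finset.univ.filter (fun xy : ZMod p × ZMod p => W.toAffine.Nonsingular xy.1 xy.2)) ⊆
        (Finset.univ : Finset (ZMod p)).biUnion (fun x =>
          (Finset.univ.filter (fun y : ZMod p => W.toAffine.Equation x y)).image (fun y => (x, y))) := by
      intro xy hxy
      simp only [Finset.mem_filter, Finset.mem_univ, true_and] at hxy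
      simp only [Finset.mem_biUnion, Finset.mem_univ, true_and, Finset.mem_image,
        Finset.mem_filter]
      exact ⟨xy.1, xy.2, hxy.1, rfl⟩
    refine (Finset.card_le_card h4).trans ?_
    refine Finset.card_biUnion_le.trans ?_
    have h5 : ∀ x : ZMod p, ((Finset.univ.filter (fun y : ZMod p => W.toAffine.Equation x y)).image
        (fun y => (x, y))).card ≤ 2 := by
      intro x
      refine Finset.card_image_le.trans ?_
      let q : Polynomial (ZMod p) := Polynomial.X ^ 2 + (Polynomial.C (W.a₁ * x + W.a₃) *
        Polynomial.X + Polynomial.C (-(x ^ 3 + W.a₂ * x ^ 2 + W.a₄ * x + W.a₆)))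
      have hlt : (Polynomial.C (W.a₁ * x + W.a₃) *
        Polynomial.X + Polynomial.C (-(x ^ 3 + W.a₂ * x ^ 2 + W.a₄ * x + W.a₆))).degree <
          ((2 : ℕ) : WithBot ℕ) :=
        lt_of_le_of_lt Polynomial.degree_linear_le (by norm_num)
      have hq : q.Monic := Polynomial.monic_X_pow_add hlt
      have hdeg : q.natDegree = 2 := by
        have : q.degree = ((2 : ℕ) : WithBot ℕ) := by
          rw [show q = (Polynomial.X ^ 2 + (Polynomial.C (W.a₁ * x + W.a₃) *
            Polynomial.X + Polynomial.C (-(x ^ 3 + W.a₂ * x ^ 2 + W.a₄ * x + W.a₆)))) from rfl,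
            Polynomial.degree_add_eq_left_of_degree_lt (by
              rw [Polynomial.degree_X_pow]; exact hlt), Polynomial.degree_X_pow]
        exact Polynomial.natDegree_eq_of_degree_eq_some this
      have h6 : (Finset.univ.filter (fun y : ZMod p => W.toAffine.Equation x y)) ⊆
          q.roots.toFinset := by
        intro y hy
        simp only [Finset.mem_filter, Finset.mem_univ, true_and] at hy
        rw [Multiset.mem_toFinset, Polynomial.mem_roots hq.ne_zero, Polynomial.IsRoot.def]
        rw [WeierstrassCurve.Affine.equation_iff] at hy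
        simp only [q, Polynomial.eval_add, Polynomial.eval_mul, Polynomial.eval_pow,
          Polynomial.eval_X, Polynomial.eval_C]
        linear_combination hy
      refine (Finset.card_le_card h6).trans ?_
      refine (Multiset.toFinset_card_le _).trans ?_
      exact (Polynomial.card_roots' q).trans hdeg.le
    refine (Finset.sum_le_sum (fun x _ => h5 x)).trans ?_
    simp [ZMod.card, mul_comm]
  omega

theorem ap_ne (p : ℕ) [Fact p.Prime] (W : WeierstrassCurve ℤ) :
    ap W p ≠ p + 1 ∧ ap W p ≠ -(p + 1) := by
  obtain ⟨h1, h2⟩ := card_pt_le p (W.baseChange (ZMod p))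
  unfold ap
  constructor <;> omega

end Run7.h446.Heeg
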