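import Mathlib
import Pool.Agent.Run7.h446.HeegDefs
import Pool.Agent.Run7.h446.HeegAlg
import Pool.Agent.Run7.h446.HeegCard

set_option autoImplicit false

open scoped TensorProduct

namespace Run7.h446.Heeg

section pts

variable (W : WeierstrassCurve ℤ)

theorem Pt.map_inj {F F' : Type} [Field F] [Field F'] (f : F →+* F') :
    Function.Injective (Pt.map W f) := by
  classical
  exact WeierstrassCurve.Affine.Point.map_injective (W' := W) (S := ℤ) f.toIntAlgHom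

theorem Pt.map_map {F F' F'' : Type} [Field F] [Field F'] [Field F''] (f : F →+* F')
    (g : F' →+* F'') (P : Pt W F) : Pt.map W g (Pt.map W f P) = Pt.map W (g.comp f) P := by
  classical
  exact WeierstrassCurve.Affine.Point.map_map (W' := W) (S := ℤ) f.toIntAlgHom g.toIntAlgHom P

theorem Pt.descent (K : Type) [Field K] {F : Type} [Field F] [Algebra K F]
    [FiniteDimensional K F] [IsGalois K F] (x : Pt W F)
    (hx : ∀ g : F ≃ₐ[K] F, Pt.map W (g : F →+* F) x = x) :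
    ∃ Q : Pt W K, Pt.map W (algebraMap K F) Q = x := by
  classical
  have hfix : ∀ a : F, (∀ g : F ≃ₐ[K] F, g a = a) → ∃ b : K, algebraMap K F b = a := by
    intro a ha
    have : a ∈ (⊥ : IntermediateField K F) := (IsGalois.mem_bot_iff_fixed a).2 ha
    exact IntermediateField.mem_bot.1 this
  rcases x with _ | ⟨a, b, h⟩
  · exact ⟨0, map_zero _⟩
  · have h1 : ∀ g : F ≃ₐ[K] F, g a = a ∧ g b = b := by
      intro g
      have := hx g
      have h2 : (WeierstrassCurve.Affine.Point.some (g a) (g b)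
        ((WeierstrassCurve.Affine.baseChange_nonsingular (W := W) (g : F →+* F).toIntAlgHom.injective ..).mpr h) :
          (W.baseChange F).toAffine.Point) = WeierstrassCurve.Affine.Point.some a b h := this
      exact WeierstrassCurve.Affine.Point.some.inj h2
    obtain ⟨a', ha'⟩ := hfix a (fun g => (h1 g).1)
    obtain ⟨b', hb'⟩ := hfix b (fun g => (h1 g).2)
    subst ha'
    subst hb'
    exact ⟨WeierstrassCurve.Affine.Point.some a' b'
      ((WeierstrassCurve.Affine.baseChange_nonsingular (W := W) (algebraMap K F).toIntAlgHom.injective ..).mp h), rfl⟩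

end pts

section vec

variable (p : ℕ) [Fact p.Prime] (W : WeierstrassCurve ℤ)

theorem VV.map_tmul {F F' : Type} [Field F] [Field F'] (f : F →+* F') (c : ℚ_[p]) (x : Pt W F) :
    VV.map p W f (c ⊗ₜ[ℤ] x) = c ⊗ₜ[ℤ] Pt.map W f x := rfl

theorem VV.map_map {F F' F'' : Type} [Field F] [Field F'] [Field F''] (f : F →+* F')
    (g : F' →+* F'') (x : VV p W F) :
    VV.map p W g (VV.map p W f x) = VV.map p W (g.comp f) x := by
  induction x using TensorProduct.induction_on with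
  | zero => simp
  | tmul c y => rw [VV.map_tmul, VV.map_tmul, VV.map_tmul, Pt.map_map]
  | add x y hx hy => rw [map_add, map_add, map_add, hx, hy]

theorem VV.map_inj {F F' : Type} [Field F] [Field F'] (f : F →+* F') :
    Function.Injective (VV.map p W f) := by
  have : Module.Flat ℤ ℚ_[p] := inferInstance
  exact Module.Flat.lTensor_preserves_injective_linearMap (M := ℚ_[p])
    (Pt.map W f).toIntLinearMap (Pt.map_inj W f)

theorem tmul_ne_zero_of_order {F : Type} [Field F] (P : Pt W F) (hP : addOrderOf P = 0) :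
    (1 : ℚ_[p]) ⊗ₜ[ℤ] P ≠ 0 := by
  intro h
  let f : ℤ →ₗ[ℤ] Pt W F := LinearMap.toSpanSingleton ℤ (Pt W F) P
  have hf : Function.Injective f := by
    intro a b hab
    by_contra hne
    have h1 : (a - b) • P = 0 := by
      rw [sub_smul, sub_eq_zero]; exact hab
    have h2 : (addOrderOf P : ℤ) ∣ a - b := addOrderOf_dvd_iff_zsmul_eq_zero.2 h1
    rw [hP] at h2
    simp only [Nat.cast_zero, zero_dvd_iff] at h2
    exact hne (sub_eq_zero.1 h2)
  have : Module.Flat ℤ ℚ_[p] := inferInstance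
  have h3 := Module.Flat.lTensor_preserves_injective_linearMap (M := ℚ_[p]) f hf
  have h4 : LinearMap.lTensor ℚ_[p] f ((1 : ℚ_[p]) ⊗ₜ[ℤ] (1 : ℤ)) = 0 := by
    rw [LinearMap.lTensor_tmul]
    simpa [f] using h
  have h5 : ((1 : ℚ_[p]) ⊗ₜ[ℤ] (1 : ℤ)) = 0 := h3 (by rw [h4, map_zero])
  have h6 := congrArg (TensorProduct.rid ℤ ℚ_[p]) h5
  simp at h6

theorem tmul_self_ne_zero {V : Type} [AddCommGroup V] [Module ℚ_[p] V] (v : V) (hv : v ≠ 0) :
    v ⊗ₜ[ℚ_[p]] v ≠ 0 := by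
  intro h
  apply hv
  rw [← Module.forall_dual_apply_eq_zero_iff ℚ_[p]]
  intro f
  have h1 := congrArg (LinearMap.mul' ℚ_[p] ℚ_[p] ∘ₗ TensorProduct.map f f) h
  simp only [LinearMap.comp_apply, TensorProduct.map_tmul, LinearMap.mul'_apply, map_zero] at h1
  exact mul_self_eq_zero.1 h1

end vec

section main

variable (p : ℕ) [Fact p.Prime] (W : WeierstrassCurve ℤ) (K : Type) [Field K]

/-- The class of `L_n` modulo `J` is `Nz ⊗ Nz`. -/
theorem sum_Lscr {F : Type} [Field F] [Algebra K F] [FiniteDimensional K F] (z : VV p W F) :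
    ∑ g : F ≃ₐ[K] F, Lscr p W K z g = norm p W K z ⊗ₜ[ℚ_[p]] norm p W K z := by
  unfold Lscr
  rw [Finset.sum_comm]
  have h1 : ∀ a : F ≃ₐ[K] F, ∑ g : F ≃ₐ[K] F, theta p W K z a ⊗ₜ[ℚ_[p]] theta p W K z (a⁻¹ * g)⁻¹ =
      theta p W K z a ⊗ₜ[ℚ_[p]] norm p W K z := by
    intro a
    rw [← TensorProduct.tmul_sum]
    congr 1
    have h2 : ∀ g : F ≃ₐ[K] F, theta p W K z (a⁻¹ * g)⁻¹ =
        VV.map p W ((a⁻¹ * g : F ≃ₐ[K] F) : F →+* F) z := by
      intro g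
      unfold theta
      rw [inv_inv]
    rw [Finset.sum_congr rfl (fun g _ => h2 g)]
    unfold norm
    exact Fintype.sum_equiv (Equiv.mulLeft a⁻¹) _ _ (fun g => rfl)
  rw [Finset.sum_congr rfl (fun a _ => h1 a), ← TensorProduct.sum_tmul]
  congr 1
  unfold norm theta
  exact Fintype.sum_equiv (Equiv.inv _) _ _ (fun g => rfl)

/-- The norm is invariant. -/
theorem norm_comp {F : Type} [Field F] [Algebra K F] [FiniteDimensional K F] (z : VV p W F)
    (σ : F ≃ₐ[K] F) : norm p W K (VV.map p W (σ : F →+* F) z) = norm p W K z := by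
  unfold norm
  refine Fintype.sum_equiv (Equiv.mulRight σ) _ _ (fun g => ?_)
  rw [VV.map_map]
  rfl

theorem norm_add {F : Type} [Field F] [Algebra K F] [FiniteDimensional K F] (z w : VV p W F) :
    norm p W K (z + w) = norm p W K z + norm p W K w := by
  unfold norm
  simp [Finset.sum_add_distrib]

theorem norm_smul {F : Type} [Field F] [Algebra K F] [FiniteDimensional K F] (c : ℚ_[p])
    (z : VV p W F) : norm p W K (c • z) = c • norm p W K z := by
  unfold norm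
  simp [Finset.smul_sum]

theorem norm_sub {F : Type} [Field F] [Algebra K F] [FiniteDimensional K F] (z w : VV p W F) :
    norm p W K (z - w) = norm p W K z - norm p W K w := by
  unfold norm
  simp

/-- The norm of `z_0` is `u⁻¹ (1 - α⁻¹)² c₀⁻¹` times a point of `E(K)`. -/
theorem norm_zzero {F : Type} [Field F] [Algebra K F] [FiniteDimensional K F] [IsGalois K F]
    (u : ℕ) (α : ℚ_[p]) (σ σ' : F ≃ₐ[K] F) (c₀ : ℤ) (x₀ : Pt W F) :
    ∃ Q : Pt W K, norm p W K (zzero p W K u α σ σ' c₀ x₀) =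
      ((u : ℚ_[p])⁻¹ * (1 - α⁻¹) ^ 2 * (c₀ : ℚ_[p])⁻¹) •
        VV.map p W (algebraMap K F) (1 ⊗ₜ[ℤ] Q) := by
  obtain ⟨Q, hQ⟩ := Pt.descent W K (∑ g : F ≃ₐ[K] F, Pt.map W (g : F →+* F) x₀) (by
    intro h
    rw [map_sum]
    refine Fintype.sum_equiv (Equiv.mulLeft h) _ _ (fun g => ?_)
    rw [Pt.map_map]
    rfl)
  refine ⟨Q, ?_⟩
  have h1 : norm p W K ((c₀ : ℚ_[p])⁻¹ ⊗ₜ[ℤ] x₀ : VV p W F) =
      (c₀ : ℚ_[p])⁻¹ • VV.map p W (algebraMap K F) (1 ⊗ₜ[ℤ] Q) := by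
    rw [VV.map_tmul, hQ]
    unfold norm
    simp only [VV.map_tmul]
    rw [← TensorProduct.tmul_sum, TensorProduct.smul_tmul', smul_eq_mul, mul_one]
  unfold zzero
  simp only []
  rw [norm_smul, norm_add, norm_sub, norm_smul, norm_smul, norm_add, norm_comp, norm_comp, h1]
  module

theorem core (hord : ¬ (p : ℤ) ∣ ap W p) (α : ℚ_[p])
    (hroot : α ^ 2 - (ap W p : ℚ_[p]) * α + p = 0) (P : Pt W K) (hP : addOrderOf P = 0)
    (hidx : (AddSubgroup.zmultiples P).index ≠ 0) (Q : Pt W K) (u : ℕ) (c₀ : ℤ) (q : ℚ)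
    (hq : q ≠ 0) :
    (((u : ℚ_[p])⁻¹ * (1 - α⁻¹) ^ 2 * (c₀ : ℚ_[p])⁻¹) • ((1 : ℚ_[p]) ⊗ₜ[ℤ] Q : VV p W K)) ⊗ₜ[ℚ_[p]]
      (((u : ℚ_[p])⁻¹ * (1 - α⁻¹) ^ 2 * (c₀ : ℚ_[p])⁻¹) • ((1 : ℚ_[p]) ⊗ₜ[ℤ] Q : VV p W K)) ≠
    (q : ℚ_[p]) • (((1 : ℚ_[p]) ⊗ₜ[ℤ] P : VV p W K) ⊗ₜ[ℚ_[p]] ((1 : ℚ_[p]) ⊗ₜ[ℤ] P : VV p W K)) := by
  intro h
  -- write t Q = m P
  have hmem : (AddSubgroup.zmultiples P).index • Q ∈ AddSubgroup.zmultiples P := by
    exact AddSubgroup.nsmul_index_mem (AddSubgroup.zmultiples P) Q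
  obtain ⟨m, hm⟩ := AddSubgroup.mem_zmultiples_iff.1 hmem
  set t := (AddSubgroup.zmultiples P).index with ht
  have ht0 : (t : ℚ_[p]) ≠ 0 := by exact_mod_cast hidx
  have hQ : ((1 : ℚ_[p]) ⊗ₜ[ℤ] Q : VV p W K) = ((m : ℚ_[p]) / t) • ((1 : ℚ_[p]) ⊗ₜ[ℤ] P) := by
    have h1 : (t : ℚ_[p]) • ((1 : ℚ_[p]) ⊗ₜ[ℤ] Q : VV p W K) =
        (m : ℚ_[p]) • ((1 : ℚ_[p]) ⊗ₜ[ℤ] P) := by
      have h2 : ((1 : ℚ_[p]) ⊗ₜ[ℤ] (t • Q) : VV p W K) = (1 : ℚ_[p]) ⊗ₜ[ℤ] (m • P) := by rw [hm]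
      rw [TensorProduct.tmul_smul, TensorProduct.tmul_smul] at h2
      rw [Nat.cast_smul_eq_nsmul, Int.cast_smul_eq_zsmul]
      exact h2
    rw [div_eq_inv_mul, mul_smul, ← h1, smul_smul, inv_mul_cancel₀ ht0, one_smul]
  have hPP : ((1 : ℚ_[p]) ⊗ₜ[ℤ] P : VV p W K) ⊗ₜ[ℚ_[p]] ((1 : ℚ_[p]) ⊗ₜ[ℤ] P : VV p W K) ≠ 0 :=
    tmul_self_ne_zero p _ (tmul_ne_zero_of_order p W P hP)
  rw [hQ, smul_smul, TensorProduct.smul_tmul_smul] at h
  have h3 := smul_left_injective ℚ_[p] hPP h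
  set s : ℚ := (u : ℚ)⁻¹ * (c₀ : ℚ)⁻¹ * (m / t) with hs
  have h4 : (s : ℚ_[p]) ^ 2 * (1 - α⁻¹) ^ 4 = q := by
    rw [← h3, hs]
    push_cast
    ring
  have hα0 : α ≠ 0 := by
    intro h0
    rw [h0] at hroot
    have : (p : ℚ_[p]) = 0 := by linear_combination hroot
    exact (Nat.cast_ne_zero.2 (Fact.out : p.Prime).ne_zero) this
  have hs0 : (s : ℚ_[p]) ≠ 0 := by
    intro h0
    rw [h0] at h4
    have : (q : ℚ_[p]) = 0 := by rw [← h4]; ring
    exact hq (by exact_mod_cast this)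
  obtain ⟨n1, n2⟩ := ap_ne p W
  apply irr_core p Fact.out (ap W p) hord n1 n2 α hroot (q / s ^ 2)
  push_cast
  rw [← h4]
  field_simp

theorem main {H F L Kb : Type} [Field H] [Field F] [Field L] [Field Kb]
    [Algebra K H] [Algebra K F] [Algebra K L] [Algebra K Kb]
    [FiniteDimensional K H] [IsGalois K H] [FiniteDimensional K F]
    (hord : ¬ (p : ℤ) ∣ ap W p) (α : ℚ_[p]) (hroot : α ^ 2 - (ap W p : ℚ_[p]) * α + p = 0)
    (iH : H →ₐ[K] Kb) (iF : F →ₐ[K] L) (iL : L →ₐ[K] Kb)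
    (u : ℕ) (σ σ' : H ≃ₐ[K] H) (c₀ : ℤ) (x₀ : Pt W H) (z : VV p W F)
    (hz : VV.map p W (iL.comp iF : F →+* Kb) (norm p W K z) =
      VV.map p W (iH : H →+* Kb) (norm p W K (zzero p W K u α σ σ' c₀ x₀)))
    (P : Pt W K) (hP : addOrderOf P = 0) (hidx : (AddSubgroup.zmultiples P).index ≠ 0)
    (q : ℚ) (hq : q ≠ 0) :
    classJ p W K (iF : F →+* L) z ≠ (q : ℚ_[p]) • (sq p W K P : VV p W L ⊗[ℚ_[p]] VV p W L) := by
  intro h
  unfold classJ sq at h
  obtain ⟨Q, hQ⟩ := norm_zzero p W K u α σ σ' c₀ x₀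
  have h1 := congrArg (TensorProduct.map (VV.map p W (iL : L →+* Kb))
    (VV.map p W (iL : L →+* Kb))) h
  rw [sum_Lscr, TensorProduct.map_tmul, TensorProduct.map_tmul, map_smul,
    TensorProduct.map_tmul, VV.map_map, VV.map_tmul, Pt.map_map] at h1
  have e1 : ((iL : L →+* Kb).comp (iF : F →+* L)) = (iL.comp iF : F →+* Kb) := rfl
  have e2 : ((iL : L →+* Kb).comp (algebraMap K L)) = algebraMap K Kb := by
    ext x; simp
  rw [e1, e2, hz, hQ, map_smul, VV.map_map] at h1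
  have e3 : ((iH : H →+* Kb).comp (algebraMap K H)) = algebraMap K Kb := by
    ext x; simp
  rw [e3] at h1
  apply core p W K hord α hroot P hP hidx Q u c₀ q hq
  have hinj : Function.Injective (TensorProduct.map (VV.map p W (algebraMap K Kb))
      (VV.map p W (algebraMap K Kb))) :=
    TensorProduct.map_injective_of_flat_flat _ _ (VV.map_inj p W _) (VV.map_inj p W _)
  apply hinj
  rw [TensorProduct.map_tmul, map_smul, map_smul, TensorProduct.map_tmul, VV.map_tmul p W _ _ P]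
  exact h1

end main

end Run7.h446.Heeg
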