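import Pool.Agent.Run7.h71.CE.Stm
import Pool.Agent.Run7.h957.CD_OUT

/-!
# Project CE (helper71): the piece OUTA
-/

set_option autoImplicit false

namespace Pool.Agent.Run7.h71.CE

open Set Filter Topology
open scoped ContDiff
open Pool.Agent.Run7.h71.CD
open Pool.Agent.Run7.h957.CDo

theorem OUTA : S_OUTA := by
  intro hLFT hRING hJETS hFR0 hFR1 hSTR hNIL hQUO hBF hCRV hTAN hRLL hIDL U F ζ T c₀ hL hF hT h57
  obtain ⟨hO, hsm, -, -, hEul, -, -⟩ := hLFT U F hL.isOpen hL.smooth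
  obtain ⟨d, hd⟩ := hRING (cone U) hO
  obtain ⟨Xc, Zc, ν, M, hXc, hZc, hM0, hJ, hMk⟩ := hJETS U F ζ hL hF d hd
  obtain ⟨Z, N, E, a, b, p, q, l, m, n, hFrm, hJZ, hMν, hE, hZ, hN⟩ :=
    hFR0 (Sm (cone U)) d Xc Zc ν M hJ
  obtain ⟨B, z, hBs, hBd, hZB, hEB, hBX⟩ := hBF (Sm (cone U)) Z N E Xc Zc ν a b p q l m n hFrm
  -- evaluations
  have hXv : ∀ (x : cone U) (i : Fin 3), ev x (Xc i) = x.1 i := fun x i => hXc i x
  have hZv : ∀ (x : cone U) (i : Fin 3), ev x (Zc i) = ζ x.1 i := fun x i => hZc i x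
  have hMv : ∀ (x : cone U) (j : Fin 3), ev x (M 0 j) = fderiv ℝ (lft F) x.1 (Pi.single j 1) :=
    fun x j => hM0 j x
  have evE : ∀ (f : Sm (cone U)) (x : cone U), fderiv ℝ (ex f) x x.1 = ev x (E f) := by
    intro f x
    rw [fderiv_ex_vec hd, hE, map_sum]
    refine Finset.sum_congr rfl fun k _ => ?_
    rw [map_mul, hXv]
  have evZ : ∀ (f : Sm (cone U)) (x : cone U), fderiv ℝ (ex f) x (ζ x.1) = ev x (Z f) := by
    intro f x
    rw [fderiv_ex_vec hd, hZ, map_sum]
    refine Finset.sum_congr rfl fun k _ => ?_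
    rw [map_mul, hZv]
  have evN : ∀ (f : Sm (cone U)) (x : cone U),
      fderiv ℝ (ex f) x (fun i => ex (ν i) x) = ev x (N f) := by
    intro f x
    rw [fderiv_ex_vec hd, hN, map_sum]
    refine Finset.sum_congr rfl fun k _ => ?_
    rw [map_mul, ex_val]
  -- the derivative of `lft F` along the frame
  have hFζ : ∀ X ∈ cone U, fderiv ℝ (lft F) X (ζ X) = 0 := by
    intro X hX
    have e1 := congrArg (ev (⟨X, hX⟩ : cone U)) hJ.f1
    unfold dot at e1
    rw [map_sum, map_zero] at e1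
    rw [clm_sum]
    refine Eq.trans ?_ e1
    refine Finset.sum_congr rfl fun k _ => ?_
    rw [map_mul, hMv, hZv, mul_comm]
  have hFν : ∀ X ∈ cone U, fderiv ℝ (lft F) X (fun i => ex (ν i) X) = 1 := by
    intro X hX
    have e1 := congrArg (ev (⟨X, hX⟩ : cone U)) hMν
    unfold dot at e1
    rw [map_sum, map_one] at e1
    rw [clm_sum]
    refine Eq.trans ?_ e1
    refine Finset.sum_congr rfl fun k _ => ?_
    rw [map_mul, hMv, ← ex_val, mul_comm]
  -- the functions vanishing on the good leaves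
  obtain ⟨G, hG⟩ : ∃ G : Set (Sm (cone U)), ∀ g, g ∈ G ↔
      ∀ x : cone U, lft F x.1 ∈ T → ev x g = 0 :=
    ⟨{g | ∀ x : cone U, lft F x.1 ∈ T → ev x g = 0}, fun g => Iff.rfl⟩
  have hGst : ∀ g ∈ G, Z g ∈ G ∧ E g ∈ G := by
    intro g hg
    rw [hG] at hg
    constructor
    · rw [hG]
      intro x hx
      rw [← evZ]
      exact hTAN hCRV (cone U) ζ (lft F) (ex g) (lft F x.1) hO hF.smooth hsm (ex_smooth g) hFζ
        (fun X hX hXc => by
          rw [show ex g X = ev (⟨X, hX⟩ : cone U) g from ex_val g ⟨X, hX⟩]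
          exact hg _ (by rw [hXc]; exact hx)) x.1 x.2 rfl
    · rw [hG]
      intro x hx
      rw [← evE]
      exact hTAN hCRV (cone U) (fun X => X) (lft F) (ex g) (lft F x.1) hO contDiffOn_id hsm
        (ex_smooth g) hEul
        (fun X hX hXc => by
          rw [show ex g X = ev (⟨X, hX⟩ : cone U) g from ex_val g ⟨X, hX⟩]
          exact hg _ (by rw [hXc]; exact hx)) x.1 x.2 rfl
  obtain ⟨J, hGJ, hJst, hJev⟩ := hIDL (Sm (cone U)) Z N E Xc Zc ν a b p q l m n hFrm G hGst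
  have h4 : dot (M 4) Zc ∈ J := by
    refine hGJ ((hG _).2 fun x hx => ?_)
    rw [ev_apply, hMk 4 (by norm_num) x]
    exact h57 x.1 x.2 hx 5 (by simp)
  have h6 : dot (M 6) Zc ∈ J := by
    refine hGJ ((hG _).2 fun x hx => ?_)
    rw [ev_apply, hMk 6 (by norm_num) x]
    exact h57 x.1 x.2 hx 7 (by simp)
  obtain ⟨k, hk⟩ := hQUO hFR1 hSTR hNIL (Sm (cone U)) J Z N E Xc Zc ν M a b p q l m n hFrm hJZ
    hJst h4 h6
  -- the torsion vanishes on the leaf `c₀`
  have hzero : ∀ x : cone U, lft F x.1 = c₀ → ev x (2 * a - Z b) = 0 := by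
    intro x hx
    have h1 : ev x ((2 * a - Z b) ^ k) = 0 := by
      refine hJev (ev x).toRingHom (fun g hg j => ?_) _ hk
      have h2 := hRLL hCRV (cone U) (fun X i => ex (ν i) X) (lft F) (fun j => ex (N^[j] g)) T c₀ hO
        (contDiffOn_pi.2 fun i => ex_smooth (ν i)) hsm (fun j => ex_smooth _) hFν
        (fun j X hX => by
          rw [show fderiv ℝ (ex (N^[j] g)) X (fun i => ex (ν i) X) =
            ev (⟨X, hX⟩ : cone U) (N (N^[j] g)) from evN _ ⟨X, hX⟩]
          rw [show ex (N^[j + 1] g) X = ev (⟨X, hX⟩ : cone U) (N^[j + 1] g) from ex_val _ ⟨X, hX⟩,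
            Function.iterate_succ_apply'])
        hT (fun X hX hXT => by
          rw [show ex (N^[0] g) X = ev (⟨X, hX⟩ : cone U) (N^[0] g) from ex_val _ ⟨X, hX⟩]
          exact (hG g).1 hg _ hXT) j x.1 x.2 hx
      have h3 : ex (N^[j] g) x = ev x (N^[j] g) := ex_val _ x
      show ev x (N^[j] g) = 0
      rw [← h3]
      exact h2
    rw [map_pow] at h1
    exact eq_zero_of_pow_eq_zero h1
  -- the inverse frame
  obtain ⟨P, hP⟩ : ∃ P : Matrix (Fin 3) (Fin 3) (Sm (cone U)), P = Matrix.of ![Xc, Zc, ν] :=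
    ⟨_, rfl⟩
  have hPu : IsUnit P.det := by rw [hP]; exact hJ.det
  have hPP : P⁻¹ * P = 1 := Matrix.nonsing_inv_mul P hPu
  have hkj : ∀ k j : Fin 3, P⁻¹ k 0 * Xc j + P⁻¹ k 1 * Zc j + P⁻¹ k 2 * ν j =
      if k = j then 1 else 0 := by
    intro k j
    have h1 := congrFun (congrFun hPP k) j
    rw [Matrix.mul_apply, Fin.sum_univ_three, Matrix.one_apply] at h1
    rw [← h1, hP]
    rfl
  refine ⟨fun X i j => ex (B i j) X, ex P.det, fun i j => ex_smooth _, ?_, ?_, ?_, ex_smooth _,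
    ?_, ?_⟩
  · intro X hX
    have hev : ∀ f : Sm (cone U), ex f X = ev (⟨X, hX⟩ : cone U) f := fun f => ex_val f ⟨X, hX⟩
    refine ⟨?_, ?_, ?_⟩
    · ext i j
      show ex (B j i) X = ex (B i j) X
      rw [hBs.apply]
    · have h1 : (Matrix.of fun i j => ex (B i j) X) =
          (ev (⟨X, hX⟩ : cone U)).toRingHom.mapMatrix B := by
        ext i j
        exact hev _
      have h2 : (Matrix.of fun i j => ex (B i j) X).det = ev (⟨X, hX⟩ : cone U) B.det := by
        rw [h1, ← RingHom.map_det]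
        rfl
      show (Matrix.of fun i j => ex (B i j) X).det ≠ 0
      rw [h2]
      exact (hBd.map (ev (⟨X, hX⟩ : cone U))).ne_zero
    · have h1 := congrArg (ev (⟨X, hX⟩ : cone U)) hBX
      simp only [map_sum, map_mul, map_zero, hXv] at h1
      unfold qf
      simp only [hev]
      exact h1
  · intro X hX i j
    have hev : ∀ f : Sm (cone U), ex f X = ev (⟨X, hX⟩ : cone U) f := fun f => ex_val f ⟨X, hX⟩
    show fderiv ℝ (ex (B i j)) X X = -2 * ex (B i j) X
    rw [show fderiv ℝ (ex (B i j)) X X = ev (⟨X, hX⟩ : cone U) (E (B i j)) from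
      evE (B i j) ⟨X, hX⟩, hEB, map_mul, hev, map_neg, map_ofNat]
  · intro X hX hc i j
    show fderiv ℝ (ex (B i j)) X (ζ X) = 0
    rw [show fderiv ℝ (ex (B i j)) X (ζ X) = ev (⟨X, hX⟩ : cone U) (Z (B i j)) from
      evZ (B i j) ⟨X, hX⟩, hZB, map_mul, hzero ⟨X, hX⟩ hc, zero_mul]
  · intro X hX
    have hev : ∀ f : Sm (cone U), ex f X = ev (⟨X, hX⟩ : cone U) f := fun f => ex_val f ⟨X, hX⟩
    refine ⟨?_, ?_, ?_⟩
    · rw [hev]
      exact (hPu.map (ev (⟨X, hX⟩ : cone U))).ne_zero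
    · rw [show fderiv ℝ (ex P.det) X (ζ X) = ev (⟨X, hX⟩ : cone U) (Z P.det) from
        evZ P.det ⟨X, hX⟩]
      have h3 : Z P.det = 0 := by rw [hP]; exact Z_det hFrm
      rw [h3, map_zero]
    · rw [show fderiv ℝ (ex P.det) X X = ev (⟨X, hX⟩ : cone U) (E P.det) from
        evE P.det ⟨X, hX⟩]
      have h3 : E P.det = 3 * P.det := by rw [hP]; exact E_det hFrm
      rw [h3, map_mul, map_ofNat, hev]
  · intro X hX V hV
    obtain ⟨x, hx⟩ : ∃ x : cone U, x = ⟨X, hX⟩ := ⟨_, rfl⟩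
    have hxX : (x : E3) = X := by rw [hx]
    have hXx : ∀ i, ev x (Xc i) = X i := by
      intro i
      rw [hXv, hxX]
    have hZx : ∀ i, ev x (Zc i) = ζ X i := by
      intro i
      rw [hZv, hxX]
    have hMx : ∀ j, ev x (M 0 j) = fderiv ℝ (lft F) X (Pi.single j 1) := by
      intro j
      rw [hMv, hxX]
    -- the coefficients
    obtain ⟨c, hc⟩ : ∃ c : Fin 3 → ℝ, c = fun i => ∑ k, V k * ev x (P⁻¹ k i) := ⟨_, rfl⟩
    have hdec : ∀ j, V j = c 0 * X j + c 1 * ζ X j + c 2 * ev x (ν j) := by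
      intro j
      rw [hc]
      simp only
      rw [Finset.sum_mul, Finset.sum_mul, Finset.sum_mul, ← Finset.sum_add_distrib,
        ← Finset.sum_add_distrib]
      have h1 : ∀ k, V k * ev x (P⁻¹ k 0) * X j + V k * ev x (P⁻¹ k 1) * ζ X j +
          V k * ev x (P⁻¹ k 2) * ev x (ν j) = if k = j then V k else 0 := by
        intro k
        have h2 := congrArg (ev x) (hkj k j)
        rw [map_add, map_add, map_mul, map_mul, map_mul, hXx, hZx] at h2
        have h3 : V k * ev x (P⁻¹ k 0) * X j + V k * ev x (P⁻¹ k 1) * ζ X j +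
          V k * ev x (P⁻¹ k 2) * ev x (ν j) = V k * (ev x (P⁻¹ k 0) * X j +
            ev x (P⁻¹ k 1) * ζ X j + ev x (P⁻¹ k 2) * ev x (ν j)) := by ring
        rw [h3, h2]
        split_ifs
        · rw [map_one, mul_one]
        · rw [map_zero, mul_zero]
      rw [Finset.sum_congr rfl fun k _ => h1 k, Finset.sum_ite_eq', if_pos (Finset.mem_univ j)]
    have hc2 : c 2 = 0 := by
      rw [clm_sum] at hV
      simp only [← hMx] at hV
      have e0 := congrArg (ev x) hJ.X0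
      have e1 := congrArg (ev x) hJ.f1
      have e2 := congrArg (ev x) hMν
      unfold dot at e0 e1 e2
      simp only [map_add, map_mul, map_zero, map_one, hXx, hZx, Fin.sum_univ_three] at e0 e1 e2
      rw [Fin.sum_univ_three, hdec 0, hdec 1, hdec 2] at hV
      linear_combination hV - c 0 * e0 - c 1 * e1 - c 2 * e2
    refine ⟨c 0, c 1, ?_⟩
    ext j
    rw [hdec j, hc2, zero_mul, add_zero]
    rfl

end Pool.Agent.Run7.h71.CE
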