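import Pool.Agent.Run7.h446.PavTab

/-!
# Fifty-one classes of simple matroids on seven points which are not paving
-/

set_option autoImplicit false

namespace Pool.Agent.Run7.h446.Pav

theorem pc_lev {k m : ℕ} (hk : k < 8) (h : m ∈ lev k) : pc m = k ∧ m < 128 := by
  have h1 := List.all_eq_true.1 (List.all_eq_true.1 lev_pc k (List.mem_range.2 hk)) m h
  simpa using h1

theorem S_xor {m i : ℕ} (hi : i < 7) (h : m.testBit i = true) :
    S (m ^^^ 2 ^ i) = (S m).erase ⟨i, hi⟩ := by
  ext j
  rw [mem_S, Finset.mem_erase, mem_S, Nat.testBit_xor, Nat.testBit_two_pow]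
  by_cases hj : (j : ℕ) = i
  · have : j = ⟨i, hi⟩ := Fin.ext hj
    subst this
    simp [h]
  · have : j ≠ ⟨i, hi⟩ := fun h' => hj (by rw [h'])
    simp [this, Ne.symm hj]

theorem S_or {m i : ℕ} (hi : i < 7) : S (m ||| 2 ^ i) = insert ⟨i, hi⟩ (S m) := by
  ext j
  rw [mem_S, Finset.mem_insert, mem_S, Nat.testBit_or, Nat.testBit_two_pow]
  by_cases hj : (j : ℕ) = i
  · have : j = ⟨i, hi⟩ := Fin.ext hj
    subst this
    simp
  · have : j ≠ ⟨i, hi⟩ := fun h' => hj (by rw [h'])
    simp [this, Ne.symm hj]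

/-- The independence predicate of the table `T`. -/
def QT (T : ℕ) (I : Set (Fin 7)) : Prop :=
  ∀ s : Finset (Fin 7), (s : Set (Fin 7)) = I → T.testBit (mk s) = true

theorem QT_coe (T : ℕ) (s : Finset (Fin 7)) : QT T (s : Set (Fin 7)) ↔ T.testBit (mk s) = true := by
  constructor
  · intro h
    exact h s rfl
  · intro h t ht
    have : t = s := by exact_mod_cast ht
    rw [this]; exact h

theorem exists_mat {r T : ℕ} (h : (r, T) ∈ tabs) :
    ∃ M : Matroid (Fin 7), M.E = Set.univ ∧ ∀ I, M.Indep I ↔ QT T I := by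
  have hs := List.all_eq_true.1 tabs_simple _ h
  have hh := List.all_eq_true.1 tabs_hered _ h
  have ha := List.all_eq_true.1 tabs_aug _ h
  have hempty : T.testBit (mk ∅) = true := by
    have h1 := List.all_eq_true.1 (List.all_eq_true.1 hs 0 (by simp)) 0 (by decide)
    have : mk ∅ = 0 := by decide
    rw [this]; exact h1
  have herase : ∀ (J : Finset (Fin 7)) (e : Fin 7), e ∈ J → T.testBit (mk J) = true →
      T.testBit (mk (J.erase e)) = true := by
    intro J e he hJ
    have h1 := List.all_eq_true.1 hh (mk J) (List.mem_range.2 (mk_lt J))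
    rw [hJ] at h1
    have h2 := List.all_eq_true.1 (by simpa only [Bool.not_true, Bool.false_or] using h1) (e : ℕ)
      (List.mem_range.2 e.2)
    have h3 : (mk J).testBit (e : ℕ) = true := by rw [testBit_mk]; simpa using he
    rw [h3] at h2
    have h4 : T.testBit (mk J ^^^ 2 ^ (e : ℕ)) = true := by
      simpa only [Bool.not_true, Bool.false_or] using h2
    have h5 : mk J ^^^ 2 ^ (e : ℕ) = mk (J.erase e) := by
      have h6 := S_xor e.2 h3
      rw [S_mk] at h6
      have h7 : mk J ^^^ 2 ^ (e : ℕ) < 128 := by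
        have : (2 : ℕ) ^ (e : ℕ) < 2 ^ 7 := Nat.pow_lt_pow_right (by norm_num) e.2
        exact Nat.xor_lt_two_pow (n := 7) (mk_lt J) this
      rw [← mk_S h7, h6]
    rw [← h5]; exact h4
  have hsubset : ∀ (n : ℕ) (I J : Finset (Fin 7)), (J \ I).card = n → I ⊆ J →
      T.testBit (mk J) = true → T.testBit (mk I) = true := by
    intro n
    induction n with
    | zero =>
      intro I J hc hIJ hJ
      have : J ⊆ I := by
        rw [← Finset.sdiff_eq_empty_iff_subset, ← Finset.card_eq_zero]; exact hc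
      rw [Finset.Subset.antisymm hIJ this]; exact hJ
    | succ n ih =>
      intro I J hc hIJ hJ
      have hne : (J \ I).Nonempty := by
        rw [← Finset.card_pos, hc]; omega
      obtain ⟨e, he⟩ := hne
      rw [Finset.mem_sdiff] at he
      apply ih I (J.erase e) _ _ (herase J e he.1 hJ)
      · have : J.erase e \ I = (J \ I).erase e := by
          ext x; simp only [Finset.mem_sdiff, Finset.mem_erase]; tauto
        rw [this, Finset.card_erase_of_mem (Finset.mem_sdiff.2 he), hc]
        rfl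
      · intro x hx
        rw [Finset.mem_erase]
        exact ⟨fun h' => he.2 (h' ▸ hx), hIJ hx⟩
  have haug : ∀ I J : Finset (Fin 7), T.testBit (mk I) = true → T.testBit (mk J) = true →
      I.card < J.card → ∃ e ∈ J, e ∉ I ∧ T.testBit (mk (insert e I)) = true := by
    intro I J hI hJ hc
    obtain ⟨J', hJ', hJc⟩ := Finset.exists_subset_card_eq (show I.card + 1 ≤ J.card by omega)
    have hJT := hsubset _ J' J rfl hJ' hJ
    have hIc : I.card < 7 := by
      have := Finset.card_le_univ J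
      simp at this
      omega
    have h1 := List.all_eq_true.1 ha I.card (List.mem_range.2 hIc)
    have hmI : mk I ∈ lev I.card := by rw [← pc_mk I]; exact mem_lev (mk_lt I)
    have hmJ : mk J' ∈ lev (I.card + 1) := by rw [← hJc, ← pc_mk J']; exact mem_lev (mk_lt J')
    have h2 := List.all_eq_true.1 h1 (mk I) hmI
    rw [hI] at h2
    have h3 := List.all_eq_true.1 (by simpa only [Bool.not_true, Bool.false_or] using h2) (mk J') hmJ
    rw [hJT] at h3
    simp only [Bool.not_true, Bool.false_or, List.any_eq_true, Bool.and_eq_true,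
      Bool.not_eq_true', List.mem_range] at h3
    obtain ⟨i, hi, hb, hna, hT⟩ := h3
    have hbJ : (⟨i, hi⟩ : Fin 7) ∈ J' := by
      have := testBit_mk J' ⟨i, hi⟩
      rw [hb] at this
      simpa using this.symm
    have hbI : (⟨i, hi⟩ : Fin 7) ∉ I := by
      have := testBit_mk I ⟨i, hi⟩
      rw [hna] at this
      simpa using this.symm
    refine ⟨⟨i, hi⟩, hJ' hbJ, hbI, ?_⟩
    have h6 := S_or (m := mk I) hi
    rw [S_mk] at h6
    have h7 : mk I ||| 2 ^ i < 128 := by
      have : (2 : ℕ) ^ i < 2 ^ 7 := Nat.pow_lt_pow_right (by norm_num) hi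
      exact Nat.or_lt_two_pow (n := 7) (mk_lt I) this
    rw [← h6, mk_S h7]
    exact hT
  refine ⟨(IndepMatroid.ofFinset Set.univ (fun s => T.testBit (mk s) = true) hempty
    (fun I J hJ hIJ => hsubset _ I J rfl hIJ hJ) (fun I J hI hJ hc => haug I J hI hJ hc)
    (fun I _ => Set.subset_univ _)).matroid, rfl, ?_⟩
  intro I
  obtain ⟨s, rfl⟩ : ∃ s : Finset (Fin 7), (s : Set (Fin 7)) = I :=
    ⟨(Set.toFinite I).toFinset, by simp⟩
  rw [QT_coe, IndepMatroid.matroid_indep_iff, IndepMatroid.ofFinset_indep]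

open Classical in
/-- An isomorphism invariant of a family of subsets. -/
noncomputable def J (Q : Finset (Fin 7) → Prop) : ℕ :=
  ∑ e : Fin 7, (∑ s : Finset (Fin 7), if e ∈ s ∧ Q s then 1 + s.card ^ 3 else 0) ^ 3

open Classical in
theorem J_table (T : ℕ) : J (fun s => T.testBit (mk s) = true) = inv T := by
  unfold J inv
  rw [sumTo_eq, Finset.sum_range]
  apply Finset.sum_congr rfl
  intro e _
  refine congrArg (fun x : ℕ => x ^ 3) ?_
  rw [sum_finset, sumTo_eq, sumTo_eq]
  apply Finset.sum_congr rfl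
  intro m hm
  have hm' := Finset.mem_range.1 hm
  have h1 : (e ∈ S m ∧ (fun s => T.testBit (mk s) = true) (S m)) ↔
      (m.testBit (e : ℕ) && T.testBit m) = true := by
    show (e ∈ S m ∧ T.testBit (mk (S m)) = true) ↔ _
    rw [mem_S, mk_S hm', Bool.and_eq_true]
  rw [Bool.cond_eq_ite, pc_eq hm']
  simp only [h1]

open Classical in
theorem J_perm {Q Q' : Finset (Fin 7) → Prop} (σ : Equiv.Perm (Fin 7))
    (h : ∀ s, Q s ↔ Q' (s.map σ.toEmbedding)) : J Q = J Q' := by
  unfold J
  rw [← Equiv.sum_comp σ (fun e => (∑ s : Finset (Fin 7), if e ∈ s ∧ Q' s then 1 + s.card ^ 3 else 0) ^ 3)]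
  apply Finset.sum_congr rfl
  intro e _
  refine congrArg (fun x : ℕ => x ^ 3) ?_
  refine Eq.trans ?_ (Equiv.sum_comp σ.finsetCongr
    (fun s : Finset (Fin 7) => if σ e ∈ s ∧ Q' s then 1 + s.card ^ 3 else 0))
  apply Finset.sum_congr rfl
  intro s _
  have h1 : σ.finsetCongr s = s.map σ.toEmbedding := rfl
  rw [h1, Finset.card_map]
  have h2 : σ e ∈ s.map σ.toEmbedding ↔ e ∈ s := by
    simp
  simp only [h2, h s]

theorem inj_tabs : Set.InjOn (fun x : ℕ × ℕ => cls (QT x.2)) {x | x ∈ tabs} := by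
  rintro ⟨r, T⟩ h ⟨r', T'⟩ h' heq
  have hnd : (tabs.map (fun x => inv x.2)).Nodup := by
    rw [tabs_inv]; exact vals_nodup
  apply List.inj_on_of_nodup_map hnd h h'
  show inv T = inv T'
  obtain ⟨M, hE, hM⟩ := exists_mat h
  have hmem : M ∈ cls (QT T) := ⟨hE, 1, fun I => by rw [hM]; simp⟩
  have heq' : cls (QT T) = cls (QT T') := heq
  rw [heq'] at hmem
  obtain ⟨-, σ, hσ⟩ := hmem
  rw [← J_table, ← J_table]
  apply J_perm σ
  intro s
  have h1 := hσ (s : Set (Fin 7))
  rw [hM, QT_coe] at h1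
  have h2 : σ '' (s : Set (Fin 7)) = ((s.map σ.toEmbedding : Finset (Fin 7)) : Set (Fin 7)) := by
    simp
  rw [h2, QT_coe] at h1
  exact h1

instance finite_matroid : Finite (Matroid (Fin 7)) := by
  apply Finite.of_injective (fun M : Matroid (Fin 7) => (M.E, M.Indep))
  intro M N h
  simp only [Prod.mk.injEq] at h
  exact Matroid.ext_indep h.1 (fun I _ => by rw [h.2])

theorem simple_table {r T : ℕ} (h : (r, T) ∈ tabs) (I : Set (Fin 7)) (hI : I.ncard < 3) : QT T I := by
  have hs := List.all_eq_true.1 tabs_simple _ h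
  intro s hsI
  rw [← hsI, Set.ncard_coe_finset] at hI
  have h1 := List.all_eq_true.1 (List.all_eq_true.1 hs s.card (List.mem_range.2 hI)) (mk s)
    (by rw [← pc_mk s]; exact mem_lev (mk_lt s))
  exact h1

theorem rank_table {r T : ℕ} (h : (r, T) ∈ tabs) :
    (∃ s : Finset (Fin 7), s.card = r ∧ QT T s) ∧ ∃ s : Finset (Fin 7), s.card < r ∧ ¬ QT T s := by
  have hs := List.all_eq_true.1 tabs_rank _ h
  have hr : r < 8 := by
    have := List.all_eq_true.1 tabs_le _ h
    simpa using this
  simp only [okRank, Bool.and_eq_true, List.any_eq_true, List.mem_range, Bool.not_eq_true'] at hs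
  obtain ⟨⟨m, hm, hmT⟩, ⟨k, hk, m', hm', hmT'⟩⟩ := hs
  constructor
  · obtain ⟨h1, h2⟩ := pc_lev hr hm
    refine ⟨S m, by rw [← pc_eq h2, h1], ?_⟩
    rw [QT_coe, mk_S h2]; exact hmT
  · obtain ⟨h1, h2⟩ := pc_lev (by omega) hm'
    refine ⟨S m', by rw [← pc_eq h2, h1]; exact hk, ?_⟩
    rw [QT_coe, mk_S h2, hmT']; simp

end Pool.Agent.Run7.h446.Pav
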