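import Pool.Agent.Run7.h446.PavLower

/-!
The failure of p(n) > s(n)/2 at n = 7 (known: Mayhew and Royle 2008). Kept as a library file, not handed in.
-/

set_option autoImplicit false
open Pool.Agent.Run7.h446.Pav

namespace Pool.Agent.Run7.h446.PavMain

/-- The negation of the preceding statement: For every n, the number of isomorphism classes of simple matroids on n elements that are paving (each circuit at least as large as the rank) is more than half of the number of all isomorphism classes of simple matroids on n elements. -/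
theorem paving_not_majority :
    ¬ (∀ n : ℕ,
      2 * {c : Set (Matroid (Fin n)) |
            ∃ M : Matroid (Fin n), M.E = Set.univ ∧
              (∀ C : Set (Fin n), M.IsCircuit C → 3 ≤ C.ncard) ∧
              (∀ C B : Set (Fin n), M.IsCircuit C → M.IsBase B → B.ncard ≤ C.ncard) ∧
              c = {N : Matroid (Fin n) | N.E = Set.univ ∧
                    ∃ σ : Equiv.Perm (Fin n), ∀ I : Set (Fin n), N.Indep I ↔ M.Indep (σ '' I)}}.ncard
        > {c : Set (Matroid (Fin n)) |
            ∃ M : Matroid (Fin n), M.E = Set.univ ∧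
              (∀ C : Set (Fin n), M.IsCircuit C → 3 ≤ C.ncard) ∧
              c = {N : Matroid (Fin n) | N.E = Set.univ ∧
                    ∃ σ : Equiv.Perm (Fin n), ∀ I : Set (Fin n), N.Indep I ↔ M.Indep (σ '' I)}}.ncard) := by
  intro hall
  have h := hall 7
  -- the classes of paving matroids
  set P7 : Set (Set (Matroid (Fin 7))) := {c : Set (Matroid (Fin 7)) |
            ∃ M : Matroid (Fin 7), M.E = Set.univ ∧
              (∀ C : Set (Fin 7), M.IsCircuit C → 3 ≤ C.ncard) ∧
              (∀ C B : Set (Fin 7), M.IsCircuit C → M.IsBase B → B.ncard ≤ C.ncard) ∧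
              c = {N : Matroid (Fin 7) | N.E = Set.univ ∧
                    ∃ σ : Equiv.Perm (Fin 7), ∀ I : Set (Fin 7), N.Indep I ↔ M.Indep (σ '' I)}} with hP7
  set S7 : Set (Set (Matroid (Fin 7))) := {c : Set (Matroid (Fin 7)) |
            ∃ M : Matroid (Fin 7), M.E = Set.univ ∧
              (∀ C : Set (Fin 7), M.IsCircuit C → 3 ≤ C.ncard) ∧
              c = {N : Matroid (Fin 7) | N.E = Set.univ ∧
                    ∃ σ : Equiv.Perm (Fin 7), ∀ I : Set (Fin 7), N.Indep I ↔ M.Indep (σ '' I)}} with hS7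
  -- at most fifty classes of paving matroids
  have hP : P7.ncard ≤ 50 := by
    have hsub : P7 ⊆ (fun x : ℕ × List ℕ => cls (P x.1 x.2)) '' {x | x ∈ allReps} := by
      rintro c ⟨M, hE, h3, hp, hc⟩
      obtain ⟨x, hx, hcl⟩ := paving_mem M hE h3 hp
      exact ⟨x, hx, by rw [hc]; exact hcl.symm⟩
    have hfin : {x | x ∈ allReps}.Finite := List.finite_toSet allReps
    calc P7.ncard ≤ ((fun x : ℕ × List ℕ => cls (P x.1 x.2)) '' {x | x ∈ allReps}).ncard :=
          Set.ncard_le_ncard hsub (Set.toFinite _)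
      _ ≤ {x | x ∈ allReps}.ncard := Set.ncard_image_le hfin
      _ ≤ allReps.length := by
          have : {x | x ∈ allReps} = (allReps.toFinset : Set (ℕ × List ℕ)) := by
            ext x; simp
          rw [this, Set.ncard_coe_finset]
          exact List.toFinset_card_le _
      _ = 50 := allReps_length
  -- fifty-one further classes
  set W : Set (Set (Matroid (Fin 7))) := (fun x : ℕ × ℕ => cls (QT x.2)) '' {x | x ∈ tabs} with hW
  have hWcard : W.ncard = 51 := by
    rw [hW, Set.InjOn.ncard_image inj_tabs]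
    have h1 : {x | x ∈ tabs} = (tabs.toFinset : Set (ℕ × ℕ)) := by
      ext x; simp
    rw [h1, Set.ncard_coe_finset]
    have hnd : tabs.Nodup := by
      apply List.Nodup.of_map (fun x : ℕ × ℕ => inv x.2)
      rw [tabs_inv]; exact vals_nodup
    rw [List.toFinset_card_of_nodup hnd, tabs_length]
  have hPS : P7 ⊆ S7 := by
    rintro c ⟨M, hE, h3, -, hc⟩
    exact ⟨M, hE, h3, hc⟩
  have hWS : W ⊆ S7 := by
    rintro c ⟨⟨r, T⟩, hx, rfl⟩
    obtain ⟨M, hE, hM⟩ := exists_mat hx
    refine ⟨M, hE, ?_, ?_⟩
    · intro C hC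
      by_contra hlt
      apply hC.not_indep
      rw [hM]
      exact simple_table hx C (by omega)
    · show cls (QT T) = cls M.Indep
      have : M.Indep = QT T := by
        funext I
        exact propext (hM I)
      rw [this]
  have hdisj : Disjoint P7 W := by
    rw [Set.disjoint_left]
    rintro c ⟨M, hE, -, hp, hc⟩ ⟨⟨r, T⟩, hx, hc'⟩
    obtain ⟨N, hNE, hN⟩ := exists_mat hx
    have hmem : N ∈ cls (QT T) := ⟨hNE, 1, fun I => by rw [hN]; simp⟩
    have hc'' : cls (QT T) = c := hc'
    rw [hc'', hc] at hmem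
    obtain ⟨-, σ, hσ⟩ := hmem
    obtain ⟨⟨s, hs, hsT⟩, ⟨t, ht, htT⟩⟩ := rank_table hx
    rw [← hN, hσ] at hsT htT
    apply htT
    by_contra hnot
    have hdep : M.Dep (σ '' (t : Set (Fin 7))) := ⟨hnot, by rw [hE]; exact Set.subset_univ _⟩
    obtain ⟨C, hCI, hC⟩ := hdep.exists_isCircuit_subset
    obtain ⟨B, hB, hsB⟩ := hsT.exists_isBase_superset
    have h1 := hp C B hC hB
    have h2 := Set.ncard_le_ncard hCI (Set.toFinite _)
    have h3 := Set.ncard_le_ncard hsB (Set.toFinite _)
    rw [Set.ncard_image_of_injective _ σ.injective, Set.ncard_coe_finset] at h2 h3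
    omega
  have hunion : (P7 ∪ W).ncard = P7.ncard + W.ncard :=
    Set.ncard_union_eq hdisj (Set.toFinite _) (Set.toFinite _)
  have hle : (P7 ∪ W).ncard ≤ S7.ncard :=
    Set.ncard_le_ncard (Set.union_subset hPS hWS) (Set.toFinite _)
  omega

end Pool.Agent.Run7.h446.PavMain
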