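import Mathlib

/-!
# Subsets of `Fin 7` as numbers below 128
-/

set_option autoImplicit false

namespace Pool.Agent.Run7.h446.Pav

/-- The subset of `Fin 7` given by the binary digits of `m`. -/
def S (m : ℕ) : Finset (Fin 7) := Finset.univ.filter (fun i => m.testBit (i : ℕ) = true)

/-- The number whose binary digits give the subset `s`. -/
def mk (s : Finset (Fin 7)) : ℕ := Nat.ofBits (fun i : Fin 7 => decide (i ∈ s))

theorem mem_S (m : ℕ) (i : Fin 7) : i ∈ S m ↔ m.testBit (i : ℕ) = true := by simp [S]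

theorem mk_lt (s : Finset (Fin 7)) : mk s < 128 := Nat.ofBits_lt_two_pow _

theorem testBit_mk (s : Finset (Fin 7)) (i : Fin 7) :
    (mk s).testBit (i : ℕ) = decide (i ∈ s) := Nat.testBit_ofBits_lt _ _ i.2

theorem S_mk (s : Finset (Fin 7)) : S (mk s) = s := by
  ext i
  rw [mem_S, testBit_mk]
  simp

theorem mk_S {m : ℕ} (h : m < 128) : mk (S m) = m := by
  apply Nat.eq_of_testBit_eq
  intro i
  by_cases hi : i < 7
  · have := testBit_mk (S m) ⟨i, hi⟩
    simp only [mem_S] at this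
    rw [this]
    cases m.testBit i <;> rfl
  · have h1 : (128 : ℕ) ≤ 2 ^ i := by
      calc (128 : ℕ) = 2 ^ 7 := by norm_num
        _ ≤ 2 ^ i := Nat.pow_le_pow_right (by norm_num) (by omega)
    rw [Nat.testBit_lt_two_pow (lt_of_lt_of_le h h1),
      Nat.testBit_lt_two_pow (lt_of_lt_of_le (mk_lt _) h1)]

theorem mk_inj {s t : Finset (Fin 7)} (h : mk s = mk t) : s = t := by
  rw [← S_mk s, ← S_mk t, h]

/-- Number of binary digits equal to one among the last seven. -/
def pc (m : ℕ) : ℕ :=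
  m % 2 + m / 2 % 2 + m / 4 % 2 + m / 8 % 2 + m / 16 % 2 + m / 32 % 2 + m / 64 % 2

theorem pc_eq' : ∀ m : Fin 128, pc (m : ℕ) = (S (m : ℕ)).card := by decide +kernel

theorem pc_eq {m : ℕ} (h : m < 128) : pc m = (S m).card := pc_eq' ⟨m, h⟩

theorem pc_mk (s : Finset (Fin 7)) : pc (mk s) = s.card := by
  rw [pc_eq (mk_lt s), S_mk]

theorem S_and (a b : ℕ) : S (a &&& b) = S a ∩ S b := by
  ext i
  simp [mem_S, Nat.testBit_and]

/-- The `i`-th octal digit of `p`. -/
def dg (p i : ℕ) : ℕ := p / 8 ^ i % 8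

/-- The image of the subset `m` under the map `i ↦ dg p i`. -/
def act (p m : ℕ) : ℕ :=
  (bif m.testBit 0 then 2 ^ dg p 0 else 0) + (bif m.testBit 1 then 2 ^ dg p 1 else 0) +
  (bif m.testBit 2 then 2 ^ dg p 2 else 0) + (bif m.testBit 3 then 2 ^ dg p 3 else 0) +
  (bif m.testBit 4 then 2 ^ dg p 4 else 0) + (bif m.testBit 5 then 2 ^ dg p 5 else 0) +
  (bif m.testBit 6 then 2 ^ dg p 6 else 0)

/-- `p` codes a permutation of `Fin 7`. -/
def isPerm (p : ℕ) : Bool :=
  (List.range 7).all (fun i => decide (dg p i < 7)) &&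
  (List.range 7).all (fun j => (List.range 7).any (fun i => dg p i == j))

theorem exists_perm {p : ℕ} (h : isPerm p = true) :
    ∃ σ : Equiv.Perm (Fin 7), ∀ i : Fin 7, ((σ i : Fin 7) : ℕ) = dg p i := by
  simp only [isPerm, Bool.and_eq_true, List.all_eq_true, List.mem_range, decide_eq_true_eq,
    List.any_eq_true, beq_iff_eq] at h
  obtain ⟨h1, h2⟩ := h
  let f : Fin 7 → Fin 7 := fun i => ⟨dg p i, h1 i i.2⟩
  have hs : Function.Surjective f := by
    intro j
    obtain ⟨i, hi, hij⟩ := h2 j j.2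
    exact ⟨⟨i, hi⟩, Fin.ext hij⟩
  exact ⟨Equiv.ofBijective f ⟨Finite.injective_iff_surjective.2 hs, hs⟩, fun i => rfl⟩

theorem mk_eq_sum' : ∀ m : Fin 128, (m : ℕ) = ∑ i ∈ S (m : ℕ), 2 ^ (i : ℕ) := by decide +kernel

theorem mk_eq_sum (s : Finset (Fin 7)) : mk s = ∑ i ∈ s, 2 ^ (i : ℕ) := by
  have := mk_eq_sum' ⟨mk s, mk_lt s⟩
  simpa only [S_mk] using this

theorem mk_map {p : ℕ} {σ : Equiv.Perm (Fin 7)} (h : ∀ i : Fin 7, ((σ i : Fin 7) : ℕ) = dg p i)
    (m : ℕ) : mk ((S m).map σ.toEmbedding) = act p m := by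
  rw [mk_eq_sum, Finset.sum_map]
  simp only [Equiv.coe_toEmbedding, h]
  rw [S, Finset.sum_filter, Fin.sum_univ_seven]
  simp only [act, Bool.cond_eq_ite]
  rfl

/-- The sum of `f` over the numbers below `n`. -/
def sumTo : ℕ → (ℕ → ℕ) → ℕ
  | 0, _ => 0
  | n + 1, f => sumTo n f + f n

theorem sumTo_eq (n : ℕ) (f : ℕ → ℕ) : sumTo n f = ∑ i ∈ Finset.range n, f i := by
  induction n with
  | zero => rfl
  | succ n ih => rw [sumTo, ih, Finset.sum_range_succ]

/-- Subsets of `Fin 7` correspond to the numbers below 128. -/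
def equivS : Fin 128 ≃ Finset (Fin 7) where
  toFun m := S m
  invFun s := ⟨mk s, mk_lt s⟩
  left_inv m := Fin.ext (mk_S m.2)
  right_inv s := S_mk s

theorem sum_finset (g : Finset (Fin 7) → ℕ) :
    ∑ s : Finset (Fin 7), g s = sumTo 128 (fun m => g (S m)) := by
  rw [sumTo_eq, Finset.sum_range, ← equivS.sum_comp]
  rfl

end Pool.Agent.Run7.h446.Pav
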