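import Pool.Agent.Run7.h446.PavData

/-!
# At most fifty classes of simple paving matroids on seven points
-/

set_option autoImplicit false

namespace Pool.Agent.Run7.h446.Pav

/-- Every family of blocks of size at least `r` (and less than seven), pairwise meeting in at most
`r - 2` points, is carried to a family of the list by a permutation. -/
theorem search (r : ℕ) (hc : check r = true) (h0 : ([] : List ℕ) ∈ reps r)
    (F : Finset (Finset (Fin 7))) :
    (∀ H ∈ F, r ≤ H.card ∧ H.card < 7) →
    (∀ H ∈ F, ∀ H' ∈ F, H ≠ H' → (H ∩ H').card + 2 ≤ r) →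
    ∃ R ∈ reps r, ∃ σ : Equiv.Perm (Fin 7), ∀ s : Finset (Fin 7),
      s ∈ F ↔ mk (s.map σ.toEmbedding) ∈ R := by
  induction F using Finset.induction_on with
  | empty =>
    intro _ _
    exact ⟨[], h0, 1, by simp⟩
  | insert c F hcF ih =>
    intro h1 h2
    obtain ⟨R, hR, σ, hσ⟩ := ih (fun H hH => h1 H (Finset.mem_insert_of_mem hH))
      (fun H hH H' hH' => h2 H (Finset.mem_insert_of_mem hH) H' (Finset.mem_insert_of_mem hH'))
    obtain ⟨x, hx, rfl⟩ := List.mem_map.1 hR
    have hx' := List.all_eq_true.1 hc x hx
    rw [Bool.and_eq_true] at hx'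
    obtain ⟨hx1, hx2⟩ := hx'
    have hlt : ∀ m ∈ x.1, m < 128 := by
      intro m hm
      have := List.all_eq_true.1 hx1 m hm
      simpa using this
    set k := mk (c.map σ.toEmbedding) with hk
    have hk128 : k < 128 := mk_lt _
    have hcomp : compat r x.1 k = true := by
      have hpk : pc k = c.card := by rw [hk, pc_mk, Finset.card_map]
      have hcc := h1 c (Finset.mem_insert_self _ _)
      simp only [compat, Bool.and_eq_true, decide_eq_true_eq, List.all_eq_true]
      refine ⟨⟨by rw [hpk]; exact hcc.1, by rw [hpk]; exact hcc.2⟩, ?_⟩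
      intro m hm
      have hm128 := hlt m hm
      -- the block of `F` which becomes `m`
      set s := (S m).map σ.symm.toEmbedding with hs
      have hsm : s.map σ.toEmbedding = S m := by
        rw [hs, Finset.map_map]
        ext i
        simp
      have hsF : s ∈ F := by
        rw [hσ s, hsm, mk_S hm128]
        exact hm
      have hne : s ≠ c := fun h => hcF (h ▸ hsF)
      have := h2 s (Finset.mem_insert_of_mem hsF) c (Finset.mem_insert_self _ _) hne
      have hcard : pc (m &&& k) = (s ∩ c).card := by
        rw [pc_eq (lt_of_le_of_lt Nat.and_le_left hm128), S_and, ← hsm, hk, S_mk,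
          ← Finset.map_inter, Finset.card_map]
      rw [hcard]
      exact this
    have hx3 := List.all_eq_true.1 hx2 k (List.mem_range.2 hk128)
    rw [hcomp] at hx3
    simp only [Bool.not_true, Bool.false_or, List.any_eq_true, Bool.and_eq_true, beq_iff_eq,
      decide_eq_true_eq] at hx3
    obtain ⟨e, -, hek, hlen, hok⟩ := hx3
    set R' := (reps r).getD e.2.2 [] with hR'
    have hR'mem : R' ∈ reps r := by
      rw [hR', List.getD_eq_getElem _ _ hlen]
      exact List.getElem_mem _
    simp only [ok, Bool.and_eq_true, List.all_eq_true, List.any_eq_true, beq_iff_eq] at hok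
    obtain ⟨⟨hperm, hf⟩, hg⟩ := hok
    obtain ⟨τ, hτ⟩ := exists_perm hperm
    refine ⟨R', hR'mem, σ.trans τ, ?_⟩
    intro s
    have hmap : s.map (σ.trans τ).toEmbedding = (s.map σ.toEmbedding).map τ.toEmbedding := by
      rw [Finset.map_map]
      rfl
    have hact : mk ((s.map σ.toEmbedding).map τ.toEmbedding) = act e.2.1 (mk (s.map σ.toEmbedding)) := by
      have := mk_map hτ (mk (s.map σ.toEmbedding))
      rwa [S_mk] at this
    have hins : s ∈ insert c F ↔ mk (s.map σ.toEmbedding) ∈ k :: x.1 := by
      rw [Finset.mem_insert, List.mem_cons, ← hσ s]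
      constructor
      · rintro (h | h)
        · left; rw [h]
        · right; exact h
      · rintro (h | h)
        · left
          have := mk_inj h
          exact Finset.map_injective _ this
        · right; exact h
    rw [hins, hmap]
    constructor
    · intro h
      obtain ⟨m', hm', hm''⟩ := hf _ h
      rw [hact, ← hm'']
      exact hm'
    · intro h
      obtain ⟨m, hm, hm'⟩ := hg _ h
      have hmlt : m < 128 := by
        rcases List.mem_cons.1 hm with h' | h'
        · rw [h']; exact hk128
        · exact hlt m h'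
      have h3 : mk ((S m).map τ.toEmbedding) = mk ((s.map σ.toEmbedding).map τ.toEmbedding) := by
        rw [mk_map hτ]
        exact hm'
      have h4 := Finset.map_injective _ (mk_inj h3)
      rw [← h4, mk_S hmlt]
      exact hm

theorem reps_lt_all : ([2, 3, 4, 5, 6, 7].all (fun r => (reps r).all (fun R => R.all (fun m => decide (m < 128))))) = true := by decide +kernel

theorem reps_lt (r : ℕ) (R : List ℕ) (h : R ∈ reps r) (m : ℕ) (hm : m ∈ R) : m < 128 := by
  have hr : r ∈ [2, 3, 4, 5, 6, 7] := by
    by_contra hr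
    have : reps r = [] := by
      rcases r with _ | _ | _ | _ | _ | _ | _ | _ | r
      all_goals first | rfl | simp at hr
    rw [this] at h
    simp at h
  have h1 := List.all_eq_true.1 (List.all_eq_true.1 (List.all_eq_true.1 reps_lt_all r hr) R h) m hm
  simpa using h1

/-- All pairs of a rank and a representative. -/
def allReps : List (ℕ × List ℕ) :=
  [2, 3, 4, 5, 6, 7].flatMap (fun r => (reps r).map (fun R => (r, R)))

theorem allReps_length : allReps.length = 50 := by decide +kernel

theorem mem_allReps {r : ℕ} {R : List ℕ} (h2 : 2 ≤ r) (h7 : r ≤ 7) (h : R ∈ reps r) :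
    (r, R) ∈ allReps := by
  rw [allReps, List.mem_flatMap]
  refine ⟨r, ?_, List.mem_map.2 ⟨R, h, rfl⟩⟩
  interval_cases r <;> simp

/-- The independent sets of the paving matroid of rank `r` with the blocks `R`. -/
def P (r : ℕ) (R : List ℕ) (I : Set (Fin 7)) : Prop :=
  I.ncard < r ∨ (I.ncard = r ∧ ∀ m ∈ R, ¬ I ⊆ (S m : Set (Fin 7)))

/-- The matroids isomorphic to the one with the independence predicate `Q`. -/
def cls (Q : Set (Fin 7) → Prop) : Set (Matroid (Fin 7)) :=
  {N | N.E = Set.univ ∧ ∃ σ : Equiv.Perm (Fin 7), ∀ I : Set (Fin 7), N.Indep I ↔ Q (σ '' I)}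

theorem cls_congr {Q Q' : Set (Fin 7) → Prop} (τ : Equiv.Perm (Fin 7))
    (h : ∀ I : Set (Fin 7), Q I ↔ Q' (τ '' I)) : cls Q = cls Q' := by
  ext N
  constructor
  · rintro ⟨hE, σ, hσ⟩
    refine ⟨hE, σ.trans τ, fun I => ?_⟩
    rw [hσ I, h]
    simp [Set.image_image]
  · rintro ⟨hE, σ, hσ⟩
    refine ⟨hE, σ.trans τ.symm, fun I => ?_⟩
    rw [hσ I, h]
    simp [Set.image_image]

open Classical in
theorem paving_mem (M : Matroid (Fin 7)) (hE : M.E = Set.univ)
    (h3 : ∀ C : Set (Fin 7), M.IsCircuit C → 3 ≤ C.ncard)
    (hp : ∀ C B : Set (Fin 7), M.IsCircuit C → M.IsBase B → B.ncard ≤ C.ncard) :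
    ∃ x ∈ allReps, cls M.Indep = cls (P x.1 x.2) := by
  obtain ⟨B, hB⟩ := M.exists_isBase
  set r := B.ncard with hr
  have hsub : ∀ X : Set (Fin 7), X ⊆ M.E := fun X => by rw [hE]; exact Set.subset_univ X
  have hbase : ∀ B', M.IsBase B' → B'.ncard = r := fun B' hB' => hB'.ncard_eq_ncard_of_isBase hB
  have F1 : ∀ I, M.Indep I → I.ncard ≤ r := by
    intro I hI
    obtain ⟨B', hB', hIB⟩ := hI.exists_isBase_superset
    rw [← hbase B' hB']
    exact Set.ncard_le_ncard hIB (Set.toFinite _)
  have F2 : ∀ I : Set (Fin 7), I.ncard < r → M.Indep I := by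
    intro I hI
    by_contra hnot
    have hdep : M.Dep I := ⟨hnot, hsub I⟩
    obtain ⟨C, hCI, hC⟩ := hdep.exists_isCircuit_subset
    have := hp C B hC hB
    have h' := Set.ncard_le_ncard hCI (Set.toFinite _)
    omega
  have F2' : ∀ I : Set (Fin 7), I.ncard < 3 → M.Indep I := by
    intro I hI
    by_contra hnot
    have hdep : M.Dep I := ⟨hnot, hsub I⟩
    obtain ⟨C, hCI, hC⟩ := hdep.exists_isCircuit_subset
    have := h3 C hC
    have h' := Set.ncard_le_ncard hCI (Set.toFinite _)
    omega
  have F3 : ∀ I : Set (Fin 7), M.Indep I → I.ncard = r → M.IsBase I := by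
    intro I hI hcard
    obtain ⟨B', hB', hIB⟩ := hI.exists_isBase_superset
    have : I = B' := Set.eq_of_subset_of_ncard_le hIB (by rw [hbase B' hB', hcard]) (Set.toFinite _)
    rw [this]; exact hB'
  have hr2 : 2 ≤ r := by
    have h01 : M.Indep ({0, 1} : Set (Fin 7)) := F2' _ (by
      rw [Set.ncard_pair (by decide)]; norm_num)
    have := F1 _ h01
    rwa [Set.ncard_pair (by decide)] at this
  have hr7 : r ≤ 7 := by
    have := Set.ncard_le_ncard (Set.subset_univ B) (Set.toFinite _)
    rwa [Set.ncard_univ, Nat.card_eq_fintype_card, Fintype.card_fin] at this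
  set F : Finset (Finset (Fin 7)) := Finset.univ.filter
    (fun H => r ≤ H.card ∧ M.closure (H : Set (Fin 7)) = H ∧ H ≠ Finset.univ) with hF
  have hFmem : ∀ H, H ∈ F ↔ (r ≤ H.card ∧ M.closure (H : Set (Fin 7)) = H ∧ H ≠ Finset.univ) := by
    intro H; simp [hF]
  -- an independent set of size `r` is not in a block
  have F5 : ∀ I : Set (Fin 7), M.Indep I → I.ncard = r → ∀ H ∈ F, ¬ I ⊆ (H : Set (Fin 7)) := by
    intro I hI hcard H hH hIH
    rw [hFmem] at hH
    have hb := F3 I hI hcard
    have h1 : M.closure I ⊆ M.closure (H : Set (Fin 7)) := M.closure_subset_closure hIH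
    rw [hb.closure_eq, hE, hH.2.1] at h1
    apply hH.2.2
    ext i
    simpa using h1 (Set.mem_univ i)
  have F6 : ∀ I : Set (Fin 7), I.ncard = r → ¬ M.Indep I → ∃ H ∈ F, I ⊆ (H : Set (Fin 7)) := by
    intro I hcard hnot
    refine ⟨(M.closure I).toFinset, ?_, ?_⟩
    · rw [hFmem]
      refine ⟨?_, ?_, ?_⟩
      · have h1 : I ⊆ M.closure I := M.subset_closure I (hsub I)
        have h2 := Set.ncard_le_ncard h1 (Set.toFinite _)
        rw [hcard] at h2
        rwa [Set.ncard_eq_toFinset_card'] at h2
      · simp
      · intro h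
        apply hnot
        have hcl : M.closure I = M.E := by
          rw [hE]
          have : ((M.closure I).toFinset : Set (Fin 7)) = Set.univ := by rw [h]; simp
          rwa [Set.coe_toFinset] at this
        have hsp : M.Spanning I := ⟨hcl, hsub I⟩
        obtain ⟨B', hB', hB'I⟩ := hsp.exists_isBase_subset
        have : B' = I := Set.eq_of_subset_of_ncard_le hB'I (by rw [hbase B' hB', hcard])
          (Set.toFinite _)
        rw [← this]; exact hB'.indep
    · rw [Set.coe_toFinset]
      exact M.subset_closure I (hsub I)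
  have F7 : ∀ I : Set (Fin 7), M.Indep I ↔
      (I.ncard < r ∨ (I.ncard = r ∧ ∀ H ∈ F, ¬ I ⊆ (H : Set (Fin 7)))) := by
    intro I
    constructor
    · intro hI
      rcases lt_or_eq_of_le (F1 I hI) with h | h
      · exact Or.inl h
      · exact Or.inr ⟨h, F5 I hI h⟩
    · rintro (h | ⟨h, h'⟩)
      · exact F2 I h
      · by_contra hnot
        obtain ⟨H, hH, hIH⟩ := F6 I h hnot
        exact h' H hH hIH
  have F4 : ∀ H ∈ F, ∀ H' ∈ F, H ≠ H' → (H ∩ H').card + 2 ≤ r := by
    -- an independent set of size `r - 1` in a block spans it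
    have key : ∀ H ∈ F, ∀ X : Finset (Fin 7), X ⊆ H → X.card + 1 = r →
        M.closure (X : Set (Fin 7)) = H := by
      intro H hH X hX hcard
      have hH' := (hFmem H).1 hH
      have hXi : M.Indep (X : Set (Fin 7)) := F2 _ (by rw [Set.ncard_coe_finset]; omega)
      apply Set.Subset.antisymm
      · have : M.closure (X : Set (Fin 7)) ⊆ M.closure (H : Set (Fin 7)) :=
          M.closure_subset_closure (by exact_mod_cast hX)
        rwa [hH'.2.1] at this
      · intro e he
        by_contra hne
        have heX : e ∉ X := fun h => hne (M.subset_closure _ (hsub _) (by exact_mod_cast h))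
        have hins : M.Indep (insert e (X : Set (Fin 7))) :=
          (hXi.insert_indep_iff_of_notMem (by exact_mod_cast heX)).2 ⟨by rw [hE]; trivial, hne⟩
        have hc : (insert e (X : Set (Fin 7))).ncard = r := by
          rw [Set.ncard_insert_of_notMem (by exact_mod_cast heX) (Set.toFinite _),
            Set.ncard_coe_finset, hcard]
        exact F5 _ hins hc H hH (Set.insert_subset he (by exact_mod_cast hX))
    intro H hH H' hH' hne
    by_contra hlt
    have hle : r - 1 ≤ (H ∩ H').card := by omega
    obtain ⟨X, hX, hXc⟩ := Finset.exists_subset_card_eq hle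
    have h1 := key H hH X (hX.trans Finset.inter_subset_left) (by omega)
    have h2 := key H' hH' X (hX.trans Finset.inter_subset_right) (by omega)
    apply hne
    have : (H : Set (Fin 7)) = H' := h1.symm.trans h2
    exact_mod_cast this
  have Fcard : ∀ H ∈ F, r ≤ H.card ∧ H.card < 7 := by
    intro H hH
    have hH' := (hFmem H).1 hH
    refine ⟨hH'.1, ?_⟩
    have h1 : H.card ≤ 7 := by
      have := Finset.card_le_univ H
      simpa using this
    rcases lt_or_eq_of_le h1 with h | h
    · exact h
    · exfalso
      apply hH'.2.2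
      rw [← Finset.card_eq_iff_eq_univ, h]
      simp
  have main : ∃ R ∈ reps r, ∃ σ : Equiv.Perm (Fin 7), ∀ s : Finset (Fin 7),
      s ∈ F ↔ mk (s.map σ.toEmbedding) ∈ R := by
    rcases Nat.lt_or_ge r 3 with h | h
    · have hr' : r = 2 := by omega
      have hFe : F = ∅ := by
        rw [Finset.eq_empty_iff_forall_notMem]
        intro H hH
        have hc := (Fcard H hH).1
        obtain ⟨X, hX, hXc⟩ := Finset.exists_subset_card_eq hc
        have hXi : M.Indep (X : Set (Fin 7)) := F2' _ (by rw [Set.ncard_coe_finset]; omega)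
        exact F5 _ hXi (by rw [Set.ncard_coe_finset]; exact hXc) H hH (by exact_mod_cast hX)
      rw [hFe, hr']
      exact ⟨[], by decide, 1, by simp⟩
    · have hcases : r = 3 ∨ r = 4 ∨ r = 5 ∨ r = 6 ∨ r = 7 := by omega
      rcases hcases with h' | h' | h' | h' | h'
      · have := search 3 check3 (by decide) F
        rw [h'] at Fcard F4 ⊢
        exact this Fcard F4
      · have := search 4 check4 (by decide) F
        rw [h'] at Fcard F4 ⊢
        exact this Fcard F4
      · have := search 5 check5 (by decide) F
        rw [h'] at Fcard F4 ⊢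
        exact this Fcard F4
      · have := search 6 check6 (by decide) F
        rw [h'] at Fcard F4 ⊢
        exact this Fcard F4
      · have := search 7 check7 (by decide) F
        rw [h'] at Fcard F4 ⊢
        exact this Fcard F4
  obtain ⟨R, hR, σ, hσ⟩ := main
  refine ⟨(r, R), mem_allReps hr2 hr7 hR, ?_⟩
  apply cls_congr σ
  intro I
  have hcard : (σ '' I).ncard = I.ncard := Set.ncard_image_of_injective I σ.injective
  rw [F7 I]
  show _ ↔ P r R (σ '' I)
  unfold P
  rw [hcard]
  apply or_congr Iff.rfl
  apply and_congr Iff.rfl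
  constructor
  · intro h m hm hIm
    by_cases hm128 : m < 128
    · have hs : ((S m).map σ.symm.toEmbedding).map σ.toEmbedding = S m := by
        rw [Finset.map_map]
        ext i
        simp
      apply h ((S m).map σ.symm.toEmbedding)
      · rw [hσ, hs, mk_S hm128]
        exact hm
      · intro i hi
        have := hIm (Set.mem_image_of_mem σ hi)
        simp only [Finset.coe_map, Equiv.coe_toEmbedding, Set.mem_image, Finset.mem_coe]
        exact ⟨σ i, by exact_mod_cast this, by simp⟩
    · -- members of the representatives are below 128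
      exfalso
      apply hm128
      exact reps_lt r R hR m hm
  · intro h H hH hIH
    rw [hσ] at hH
    apply h _ hH
    rw [S_mk]
    simp only [Finset.coe_map, Equiv.coe_toEmbedding]
    exact Set.image_mono hIH

end Pool.Agent.Run7.h446.Pav
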